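import Pool.Agent.TH931.LP.StmB

/-!
LP931, task B3: upper bounds of the Laplace transform near a Hanner polytope (helper641).
-/

set_option autoImplicit false

open MeasureTheory Set Filter
open scoped ENNReal Matrix Pointwise Topology

namespace Pool.Agent.TH641.LP931

open Pool.Agent.TH931.LP
open Pool.Agent.W678.LM (FK Mp Cb)
open Pool.Agent.W686.LP (SB)

theorem lintegral_smul' {n : ℕ} (p : ℝ) (hp : 0 < p) (g : (Fin n → ℝ) → ℝ≥0∞) :
    ∫⁻ x, g (p • x) = ENNReal.ofReal ((p ^ n)⁻¹) * ∫⁻ x, g x := by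
  have h1 : MeasurableEmbedding (fun x : Fin n → ℝ => p • x) :=
    (Homeomorph.smulOfNeZero p hp.ne').measurableEmbedding
  have h2 := h1.lintegral_map (μ := volume) g
  rw [← h2, Measure.map_addHaar_smul volume hp.ne', lintegral_smul_measure]
  simp only [Module.finrank_fin_fun, smul_eq_mul]
  rw [abs_of_pos (by positivity)]

variable {n : ℕ} {U V : Type} [Fintype U] [Fintype V]

theorem h_eq (F : Fr n U V) (hF : Good F) (y : Fin n → ℝ) :
    F.v (F.vt y) ⬝ᵥ y = F.h y := hF.dhalf.eq y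

theorem sum_mu (F : Fr n U V) (α : U → V → ℝ) (mu : (Fin n → ℝ) → U → ℝ) (hF : Good F)
    (hk : Ker F α mu) (y : Fin n → ℝ) : ∑ a, mu y a = F.h y := by
  have h1 := hk.bary y
  have h2 : F.v (F.vt y) ⬝ᵥ (∑ a, mu y a • F.u a) = F.h y := by
    rw [h1]; exact h_eq F hF y
  rw [dotProduct_sum] at h2
  rw [← h2]
  apply Finset.sum_congr rfl
  intro a _
  rw [dotProduct_smul, smul_eq_mul]
  by_cases h0 : mu y a = 0
  · rw [h0, zero_mul]
  · have := hk.supp y a h0
    rw [dotProduct_comm, this, mul_one]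

theorem cone_bound (F : Fr n U V) (mu : (Fin n → ℝ) → U → ℝ) (LQ : (Fin n → ℝ) → ℝ)
    (Y : Set (Fin n → ℝ)) (qa : ℝ) (hF : Good F) (hq : QC F mu LQ Y qa)
    (p : ℝ) (hp : 0 < p) (y : Fin n → ℝ) (hy : y ∈ Y) (ψ : U → ℝ) (S : Set (Fin n → ℝ))
    (hSm : MeasurableSet S)
    (hS : ∀ x ∈ S, ∀ a, F.u a ⬝ᵥ F.v (F.vt y) = 1 → F.u a ⬝ᵥ x ≤ 1 + ψ a / p) :
    ∫⁻ x in S, ENNReal.ofReal (Real.exp (p * (x ⬝ᵥ y))) ≤
      ENNReal.ofReal (Real.exp (p * F.h y + ∑ a, mu y a * ψ a + LQ y) / p ^ n) := by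
  set v := F.v (F.vt y) with hv
  set T : Set (Fin n → ℝ) := {x | ∀ a, F.u a ⬝ᵥ F.v (F.vt y) = 1 → F.u a ⬝ᵥ x ≤ ψ a} with hT
  have hTm : MeasurableSet T := by
    rw [hT]
    have : {x : Fin n → ℝ | ∀ a, F.u a ⬝ᵥ F.v (F.vt y) = 1 → F.u a ⬝ᵥ x ≤ ψ a} =
        ⋂ a, ⋂ (_ : F.u a ⬝ᵥ F.v (F.vt y) = 1), {x | F.u a ⬝ᵥ x ≤ ψ a} := by
      ext x; simp
    rw [this]
    apply MeasurableSet.iInter; intro a
    apply MeasurableSet.iInter; intro _
    apply IsClosed.measurableSet
    apply isClosed_le _ continuous_const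
    unfold dotProduct
    fun_prop
  set g : (Fin n → ℝ) → ℝ≥0∞ := T.indicator fun x => ENNReal.ofReal (Real.exp (x ⬝ᵥ y)) with hg
  have hgm : Measurable fun x : Fin n → ℝ => ENNReal.ofReal (Real.exp (x ⬝ᵥ y)) := by
    apply ENNReal.measurable_ofReal.comp
    apply Real.measurable_exp.comp
    unfold dotProduct
    fun_prop
  have hcert : ∫⁻ x, g x ≤ ENNReal.ofReal (Real.exp (∑ a, mu y a * ψ a + LQ y)) := by
    rw [hg, lintegral_indicator hTm]
    exact hq.cert y hy ψ
  have hpt : ∀ x ∈ S, ENNReal.ofReal (Real.exp (p * (x ⬝ᵥ y))) ≤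
      ENNReal.ofReal (Real.exp (p * F.h y)) * g (p • (x - v)) := by
    intro x hx
    have hmem : p • (x - v) ∈ T := by
      intro a ha
      rw [dotProduct_smul, dotProduct_sub, smul_eq_mul, hv, ha]
      have := hS x hx a ha
      have h2 : F.u a ⬝ᵥ x - 1 ≤ ψ a / p := by linarith
      calc p * (F.u a ⬝ᵥ x - 1) ≤ p * (ψ a / p) := mul_le_mul_of_nonneg_left h2 hp.le
        _ = ψ a := by field_simp
    rw [hg, indicator_of_mem hmem, ← ENNReal.ofReal_mul (Real.exp_pos _).le, ← Real.exp_add]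
    apply ENNReal.ofReal_le_ofReal
    rw [Real.exp_le_exp, smul_dotProduct, sub_dotProduct, smul_eq_mul]
    have := h_eq F hF y
    rw [← hv] at this
    rw [this]
    apply le_of_eq; ring
  calc ∫⁻ x in S, ENNReal.ofReal (Real.exp (p * (x ⬝ᵥ y)))
      ≤ ∫⁻ x in S, ENNReal.ofReal (Real.exp (p * F.h y)) * g (p • (x - v)) :=
        setLIntegral_mono' hSm hpt
    _ ≤ ∫⁻ x, ENNReal.ofReal (Real.exp (p * F.h y)) * g (p • (x - v)) :=
        setLIntegral_le_lintegral _ _
    _ = ENNReal.ofReal (Real.exp (p * F.h y)) * ∫⁻ x, g (p • (x - v)) := by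
        rw [lintegral_const_mul' _ _ ENNReal.ofReal_ne_top]
    _ = ENNReal.ofReal (Real.exp (p * F.h y)) * ∫⁻ x, g (p • x) := by
        rw [lintegral_sub_right_eq_self (fun x => g (p • x)) v]
    _ = ENNReal.ofReal (Real.exp (p * F.h y)) * (ENNReal.ofReal ((p ^ n)⁻¹) * ∫⁻ x, g x) := by
        rw [lintegral_smul' p hp]
    _ ≤ ENNReal.ofReal (Real.exp (p * F.h y)) * (ENNReal.ofReal ((p ^ n)⁻¹) *
          ENNReal.ofReal (Real.exp (∑ a, mu y a * ψ a + LQ y))) := by gcongr
    _ = ENNReal.ofReal (Real.exp (p * F.h y + ∑ a, mu y a * ψ a + LQ y) / p ^ n) := by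
        rw [← ENNReal.ofReal_mul (by positivity), ← ENNReal.ofReal_mul (by positivity)]
        congr 1
        rw [add_assoc, Real.exp_add (p * F.h y)]
        ring

theorem exp_cont (p : ℝ) (y : Fin n → ℝ) :
    Continuous fun x : Fin n → ℝ => Real.exp (p * (x ⬝ᵥ y)) := by
  unfold dotProduct
  fun_prop

theorem FK_lint (p : ℝ) (K : Set (Fin n → ℝ)) (hK : IsCompact K) (y : Fin n → ℝ) :
    ENNReal.ofReal (FK p K y) = ∫⁻ x in K, ENNReal.ofReal (Real.exp (p * (x ⬝ᵥ y))) := by
  unfold FK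
  apply ofReal_integral_eq_lintegral_ofReal
  · exact (exp_cont p y).continuousOn.integrableOn_compact hK
  · exact Eventually.of_forall fun x => (Real.exp_pos _).le

theorem b3 : S_b3 := by
  intro n U V _ _ F α mu LQ Y qa hF hk hq
  refine ⟨?_, ?_⟩
  · intro p C hp hC K hK hN y hy
    have h1 := cone_bound F mu LQ Y qa hF hq p hp y hy (fun _ => C) K hK.measurableSet
      (fun x hx a _ => (hF.half.le a x).trans (hN x hx))
    have h2 : ∑ a, mu y a * C = C * F.h y := by
      rw [← Finset.sum_mul, sum_mu F α mu hF hk y, mul_comm]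
    rw [h2, ← FK_lint p K hK y] at h1
    exact (ENNReal.ofReal_le_ofReal_iff (by positivity)).mp h1
  · intro p r σ hp K hK y hy ψ h1 h2
    set v := F.v (F.vt y) with hv
    have hAm : MeasurableSet {x : Fin n → ℝ | ‖x - v‖ ≤ r} := by
      apply IsClosed.measurableSet
      exact isClosed_le (by fun_prop) continuous_const
    have hc := cone_bound F mu LQ Y qa hF hq p hp y hy ψ (K ∩ {x | ‖x - v‖ ≤ r})
      (hK.measurableSet.inter hAm) (fun x hx a ha => h1 x hx.1 hx.2 a ha)
    have hd : ∫⁻ x in K \ {x | ‖x - v‖ ≤ r}, ENNReal.ofReal (Real.exp (p * (x ⬝ᵥ y))) ≤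
        ENNReal.ofReal (volume.real K * Real.exp (p * (F.h y - σ))) := by
      calc ∫⁻ x in K \ {x | ‖x - v‖ ≤ r}, ENNReal.ofReal (Real.exp (p * (x ⬝ᵥ y)))
          ≤ ∫⁻ x in K \ {x | ‖x - v‖ ≤ r}, ENNReal.ofReal (Real.exp (p * (F.h y - σ))) := by
            apply setLIntegral_mono' (hK.measurableSet.diff hAm)
            intro x hx
            apply ENNReal.ofReal_le_ofReal
            rw [Real.exp_le_exp]
            apply mul_le_mul_of_nonneg_left _ hp.le
            apply h2 x hx.1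
            have := hx.2
            simp only [mem_setOf_eq, not_le] at this
            exact this
        _ = ENNReal.ofReal (Real.exp (p * (F.h y - σ))) * volume (K \ {x | ‖x - v‖ ≤ r}) := by
            rw [setLIntegral_const]
        _ ≤ ENNReal.ofReal (Real.exp (p * (F.h y - σ))) * volume K := by
            gcongr
            exact diff_subset
        _ = ENNReal.ofReal (volume.real K * Real.exp (p * (F.h y - σ))) := by
            rw [mul_comm, ENNReal.ofReal_mul measureReal_nonneg]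
            congr 1
            rw [Measure.real, ENNReal.ofReal_toReal hK.measure_lt_top.ne]
    have hsum : ENNReal.ofReal (FK p K y) ≤
        ENNReal.ofReal (Real.exp (p * F.h y + ∑ a, mu y a * ψ a + LQ y) / p ^ n +
          volume.real K * Real.exp (p * (F.h y - σ))) := by
      rw [FK_lint p K hK y, ← lintegral_inter_add_diff _ K hAm,
        ENNReal.ofReal_add (by positivity) (by positivity)]
      exact add_le_add hc hd
    exact (ENNReal.ofReal_le_ofReal_iff (by positivity)).mp hsum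

end Pool.Agent.TH641.LP931
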