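import Pool.Agent.TH931.LP.StmB
import Pool.Agent.W800.LP.O3b

/-!
LP931, task B7: the asymptotics of `M_p` of the cube (helper641).
-/

set_option autoImplicit false

open MeasureTheory Set Filter
open scoped ENNReal Matrix Pointwise Topology

namespace Pool.Agent.TH641.LP931

open Pool.Agent.TH931.LP
open Pool.Agent.W678.LM (FK Mp Cb z q z_pos Mp_cube)
open Pool.Agent.W686.LP (SB)



theorem int_lower (t : ℝ) (ht : 0 < t) :
    (t / 2) * Real.exp (2 * ((t / 2) * Real.log (t / 2))) / (t + 1) ≤
      Real.exp (t / 2) * ∫ u in (0 : ℝ)..(t / 2), Real.exp (-u) * u ^ t := by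
  have h1 : Real.exp (-(t / 2)) * ∫ u in (0 : ℝ)..(t / 2), u ^ t ≤
      ∫ u in (0 : ℝ)..(t / 2), Real.exp (-u) * u ^ t := by
    rw [← intervalIntegral.integral_const_mul]
    apply intervalIntegral.integral_mono_on (by positivity)
    · apply Continuous.intervalIntegrable
      exact continuous_const.mul (Real.continuous_rpow_const ht.le)
    · apply Continuous.intervalIntegrable
      exact (Real.continuous_exp.comp continuous_neg).mul (Real.continuous_rpow_const ht.le)
    · intro u hu
      have hu0 : 0 ≤ u := hu.1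
      apply mul_le_mul_of_nonneg_right _ (Real.rpow_nonneg hu0 _)
      rw [Real.exp_le_exp]
      linarith [hu.2]
  have h2 : ∫ u in (0 : ℝ)..(t / 2), u ^ t = (t / 2) ^ (t + 1) / (t + 1) := by
    rw [integral_rpow (Or.inl (by linarith))]
    rw [Real.zero_rpow (by positivity), sub_zero]
  have h3 : (t / 2) ^ (t + 1) = (t / 2) * Real.exp (2 * ((t / 2) * Real.log (t / 2))) := by
    rw [Real.rpow_add (by positivity), Real.rpow_one, Real.rpow_def_of_pos (by positivity)]
    rw [mul_comm]
    congr 2
    ring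
  rw [h2, h3] at h1
  have h4 := mul_le_mul_of_nonneg_left h1 (Real.exp_pos (t / 2)).le
  rw [← mul_assoc, ← Real.exp_add, add_neg_cancel, Real.exp_zero, one_mul] at h4
  exact h4

theorem key (η : ℝ) (hη : 0 < η) : ∃ t0 : ℝ, 0 < t0 ∧ ∀ t : ℝ, 0 < t → t ≤ t0 →
    Real.exp (t / 2) * (Real.Gamma (1 + t) - ∫ u in (0 : ℝ)..(t / 2), Real.exp (-u) * u ^ t) ≤
      Real.exp ((-Real.eulerMascheroniConstant + η) * t) := by
  set c : ℝ := η / 3 with hc
  have hc0 : 0 < c := by positivity
  have hd : HasDerivAt (fun t : ℝ => Real.exp (t / 2) * Real.Gamma (1 + t)) (1 / 2 - Real.eulerMascheroniConstant) 0 := by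
    have hG : HasDerivAt (fun t : ℝ => Real.Gamma (1 + t)) (-Real.eulerMascheroniConstant) 0 := by
      have h1 : HasDerivAt Real.Gamma (-Real.eulerMascheroniConstant) (1 + 0) := by
        rw [add_zero]; exact Real.hasDerivAt_Gamma_one
      exact h1.comp_const_add 1 0
    have hE : HasDerivAt (fun t : ℝ => Real.exp (t / 2)) (1 / 2) 0 := by
      have h1 : HasDerivAt (fun t : ℝ => t / 2) (1 / 2) 0 := (hasDerivAt_id 0).div_const 2
      have h2 := h1.exp
      simpa using h2
    have h3 := hE.mul hG
    have h4 : (1 / 2 - Real.eulerMascheroniConstant) = 1 / 2 * (Real.Gamma (1 + 0)) + Real.exp (0 / 2) * (-Real.eulerMascheroniConstant) := by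
      simp only [add_zero, Real.Gamma_one, zero_div, Real.exp_zero]
      ring
    rw [h4]
    exact h3
  rw [hasDerivAt_iff_isLittleO] at hd
  have hd2 := hd.def hc0
  have hcont : ContinuousAt (fun t : ℝ => Real.exp (2 * ((t / 2) * Real.log (t / 2))) / (t + 1)) 0 := by
    apply ContinuousAt.div
    · apply Continuous.continuousAt
      apply Real.continuous_exp.comp
      apply Continuous.mul continuous_const
      exact Real.continuous_mul_log.comp (continuous_id.div_const 2)
    · fun_prop
    · norm_num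
  have hev : ∀ᶠ t in 𝓝 (0 : ℝ), 1 - c < Real.exp (2 * ((t / 2) * Real.log (t / 2))) / (t + 1) := by
    apply hcont.eventually (lt_mem_nhds _)
    simp only [zero_div, Real.log_zero, mul_zero, Real.exp_zero, zero_add, div_one]
    linarith
  obtain ⟨ε, hε, hball⟩ := Metric.eventually_nhds_iff.mp (hd2.and hev)
  refine ⟨ε / 2, by positivity, ?_⟩
  intro t ht htε
  obtain ⟨ha, hb⟩ := hball (y := t) (by rw [Real.dist_eq, sub_zero, abs_of_pos ht]; linarith)
  have hlow := int_lower t ht
  simp only [sub_zero, zero_div, Real.exp_zero, add_zero, Real.Gamma_one, mul_one, smul_eq_mul,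
    Real.norm_eq_abs, abs_of_pos ht] at ha
  have ha2 := (abs_le.mp ha).2
  have hb2 : (t / 2) * (1 - c) ≤
      (t / 2) * Real.exp (2 * ((t / 2) * Real.log (t / 2))) / (t + 1) := by
    rw [mul_div_assoc]
    exact mul_le_mul_of_nonneg_left hb.le (by positivity)
  have hexp := Real.add_one_le_exp ((-Real.eulerMascheroniConstant + η) * t)
  have htc : 0 < t * c := by positivity
  have hη3 : η * t = 3 * (t * c) := by rw [hc]; ring
  nlinarith

theorem b7 : S_b7 := by
  intro n η hη
  have hn1 : (0 : ℝ) < (n : ℝ) + 1 := by positivity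
  obtain ⟨t0, ht0, H⟩ := key (η / (n + 1)) (by positivity)
  refine ⟨max 2 (1 / t0), lt_of_lt_of_le (by norm_num) (le_max_left _ _), ?_⟩
  intro p hp
  have hp2 : 2 ≤ p := le_trans (le_max_left _ _) hp
  have hpt : 1 / t0 ≤ p := le_trans (le_max_right _ _) hp
  have hp0 : 0 < p := by linarith
  have hpt' : 1 / p ≤ t0 := by
    rw [div_le_iff₀ ht0] at hpt
    rw [div_le_iff₀ hp0]
    linarith
  have hkey := H (1 / p) (by positivity) hpt'
  have h3b := Pool.Agent.W800.LP.o3b p (by linarith)
  rw [Mp_cube hp0]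
  apply ENNReal.ofReal_le_ofReal
  have hz := z_pos hp0
  have hq : ((2 : ℝ) ^ n) ^ (q p) = (2 * 2 ^ (1 / p)) ^ n := by
    rw [← Real.rpow_natCast, ← Real.rpow_mul (by norm_num), mul_comm, Real.rpow_mul (by norm_num),
      Real.rpow_natCast]
    congr 1
    unfold q
    rw [Real.rpow_add (by norm_num), Real.rpow_one]
  rw [hq, ← mul_pow]
  have hhalf : (1 / p) / 2 = 1 / (2 * p) := by field_simp
  rw [hhalf] at hkey
  have h2p : (2 * p) ^ (1 / p) = Real.exp ((Real.log 2 + Real.log p) * (1 / p)) := by
    rw [Real.rpow_def_of_pos (by positivity), Real.log_mul (by norm_num) hp0.ne']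
  have hone : 2 * 2 ^ (1 / p) * z p ≤ 4 * Real.exp ((Real.log p + (Real.log 2 - Real.eulerMascheroniConstant) +
      η / (n + 1)) / p) := by
    calc 2 * 2 ^ (1 / p) * z p = 2 * (2 ^ (1 / p) * z p) := by ring
      _ ≤ 2 * (2 * ((2 * p) ^ (1 / p) * Real.exp ((-Real.eulerMascheroniConstant + η / (n + 1)) * (1 / p)))) := by
          apply mul_le_mul_of_nonneg_left _ (by norm_num)
          refine h3b.trans ?_
          apply mul_le_mul_of_nonneg_left _ (by norm_num)
          apply mul_le_mul_of_nonneg_left hkey (by positivity)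
      _ = 4 * Real.exp ((Real.log p + (Real.log 2 - Real.eulerMascheroniConstant) + η / (n + 1)) / p) := by
          rw [h2p, ← Real.exp_add]
          have : (Real.log 2 + Real.log p) * (1 / p) + (-Real.eulerMascheroniConstant + η / (n + 1)) * (1 / p) =
              (Real.log p + (Real.log 2 - Real.eulerMascheroniConstant) + η / (n + 1)) / p := by ring
          rw [this]; ring
  calc (2 * 2 ^ (1 / p) * z p) ^ n ≤ (4 * Real.exp ((Real.log p + (Real.log 2 - Real.eulerMascheroniConstant) +
      η / (n + 1)) / p)) ^ n := pow_le_pow_left₀ (by positivity) hone n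
    _ = 4 ^ n * Real.exp (n * ((Real.log p + (Real.log 2 - Real.eulerMascheroniConstant) + η / (n + 1)) / p)) := by
        rw [mul_pow, ← Real.exp_nat_mul]
    _ ≤ 4 ^ n * Real.exp ((n * Real.log p + n * (Real.log 2 - Real.eulerMascheroniConstant) + η) / p) := by
        apply mul_le_mul_of_nonneg_left _ (by positivity)
        rw [Real.exp_le_exp, ← mul_div_assoc]
        apply div_le_div_of_nonneg_right _ hp0.le
        have : (n : ℝ) * (η / (n + 1)) ≤ η := by
          rw [← mul_div_assoc, div_le_iff₀ hn1]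
          nlinarith
        nlinarith

end Pool.Agent.TH641.LP931
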