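import Pool.Agent.TH931.LP.StmB

/-!
LP931, task B8: strict inequality near a body with certificates and positive excess (helper641).
-/

set_option autoImplicit false

open MeasureTheory Set
open scoped ENNReal Matrix Pointwise

namespace Pool.Agent.TH641.LP931

open Pool.Agent.TH931.LP
open Pool.Agent.W678.LM (FK Mp Cb)
open Pool.Agent.W686.LP (SB)

theorem HH_step (n : ℕ) (hn : 0 < n) : (n : ℝ) * HH n = n * HH (n - 1) + 1 := by
  obtain ⟨m, rfl⟩ : ∃ m, n = m + 1 := ⟨n - 1, by omega⟩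
  unfold HH
  rw [Nat.add_sub_cancel, Finset.sum_range_succ]
  have : (m : ℝ) + 1 ≠ 0 := by positivity
  push_cast
  field_simp

theorem near (h6 : S_b6) (h7 : S_b7) : S_near := by
  intro n H Δ d hrep hΔ C hC
  obtain ⟨U, V, iU, iV, F, α, mu, nu, LQ, Y, qa, lam, LZ, Z, g, hcert, hbody, hΔe, -⟩ := hrep
  have hn : 0 < n := hcert.good.n_pos
  obtain ⟨q1, hq1, H6⟩ := h6 n U V F α mu nu LQ Y qa hcert.good hcert.ker hcert.dker hcert.qc
    C (Δ / 4) hC (by positivity)
  obtain ⟨q2, hq2, H7⟩ := h7 n (Δ / 4) (by positivity)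
  refine ⟨max q1 q2, lt_of_lt_of_le hq1 (le_max_left _ _), ?_⟩
  intro p hp K hK hHK hKH
  have hp1 : q1 ≤ p := le_trans (le_max_left _ _) hp
  have hp2 : q2 ≤ p := le_trans (le_max_right _ _) hp
  have hp0 : 0 < p := by linarith
  rw [← hbody] at hHK hKH
  have h1 := H6 p hp1 K hK hHK hKH
  have h2 := H7 p hp2
  refine lt_of_le_of_lt h2 (lt_of_lt_of_le ?_ h1)
  rw [ENNReal.ofReal_lt_ofReal_iff (by positivity)]
  apply mul_lt_mul_of_pos_left _ (by positivity)
  rw [Real.exp_lt_exp]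
  apply div_lt_div_of_pos_right _ hp0
  have hs := HH_step n hn
  rw [← hbody] at hΔe
  nlinarith

end Pool.Agent.TH641.LP931
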