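import Pool.Agent.TH931.LP.StmD

/-!
LP931, task E3: finitely many trees of each dimension (helper641).
-/

set_option autoImplicit false

open Set

namespace Pool.Agent.TH641.LP931

open Pool.Agent.TH931.LP

theorem dim_pos (t : NT) : 1 ≤ t.dim := by
  induction t with
  | cube c => simp [NT.dim]
  | prod a b iha ihb => simp only [NT.dim]; omega
  | sum a b iha ihb => simp only [NT.dim]; omega

theorem fin : S_fin := by
  intro n
  induction n using Nat.strong_induction_on with
  | _ n ih =>
    have hfin : ({NT.cube (n - 1)} ∪ ⋃ k ∈ Finset.Ico 1 n,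
        (((fun p : NT × NT => NT.prod p.1 p.2) '' ({t | t.dim = k} ×ˢ {t | t.dim = n - k})) ∪
        ((fun p : NT × NT => NT.sum p.1 p.2) '' ({t | t.dim = k} ×ˢ {t | t.dim = n - k})))).Finite := by
      apply Set.Finite.union (Set.finite_singleton _)
      apply Set.Finite.biUnion (Finset.finite_toSet _)
      intro k hk
      simp only [Finset.coe_Ico, Set.mem_Ico] at hk
      have h1 := ih k hk.2
      have h2 := ih (n - k) (by omega)
      exact ((h1.prod h2).image _).union ((h1.prod h2).image _)
    refine hfin.subset ?_
    intro t ht
    simp only [mem_setOf_eq] at ht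
    cases t with
    | cube c =>
      left
      simp only [NT.dim] at ht
      simp only [mem_singleton_iff, NT.cube.injEq]
      omega
    | prod a b =>
      right
      simp only [NT.dim] at ht
      have ha := dim_pos a
      have hb := dim_pos b
      simp only [mem_iUnion]
      refine ⟨a.dim, by simp only [Finset.mem_Ico]; omega, Or.inl ⟨(a, b), ⟨rfl, ?_⟩, rfl⟩⟩
      simp only [mem_setOf_eq]; omega
    | sum a b =>
      right
      simp only [NT.dim] at ht
      have ha := dim_pos a
      have hb := dim_pos b
      simp only [mem_iUnion]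
      refine ⟨a.dim, by simp only [Finset.mem_Ico]; omega, Or.inr ⟨(a, b), ⟨rfl, ?_⟩, rfl⟩⟩
      simp only [mem_setOf_eq]; omega

end Pool.Agent.TH641.LP931
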